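import Pool.Agent.H793R2.LG.GapTail

/-! GAPTAIL (helper793): very large gaps between the zeros are rare. -/

open Complex Filter Topology Set MeasureTheory

namespace LG

open SG (hh nn dd dl ord NZ)
open SP (RHs ZZ mu wt Mk Par Eb PS chi qq tt)

namespace GT

open SP

/-- upper bound for the basic real integral -/
theorem int_cos_upper {l x : ℝ} (hl : 0 < l) (h : x ≠ 0) :
    ∫ u in (0 : ℝ)..l, (1 - u / l) ^ 2 * Real.cos (u * x) ≤ 4 / (l * x ^ 2) := by
  have hy : l * x ≠ 0 := mul_ne_zero hl.ne' h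
  have h1 : ∫ u in (0 : ℝ)..l, (1 - u / l) ^ 2 * Real.cos (u * x) =
      2 / (l * x ^ 2) * (1 - Real.sin (l * x) / (l * x)) := by
    have hd : ∀ u ∈ uIcc 0 l, HasDerivAt (fun u => (1 - u / l) ^ 2 * Real.sin (u * x) / x -
        2 / (l * x ^ 2) * ((1 - u / l) * Real.cos (u * x)) -
        2 / (l ^ 2 * x ^ 3) * Real.sin (u * x)) ((1 - u / l) ^ 2 * Real.cos (u * x)) u := by
      intro u _
      have h1 : HasDerivAt (fun u => 1 - u / l) (-(1 / l)) u := by
        simpa using ((hasDerivAt_id u).div_const l).const_sub 1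
      have h2 : HasDerivAt (fun u => u * x) x u := by
        simpa using (hasDerivAt_id u).mul_const x
      have h3 : HasDerivAt (fun u => Real.sin (u * x)) (Real.cos (u * x) * x) u := h2.sin
      have h4 : HasDerivAt (fun u => Real.cos (u * x)) (-Real.sin (u * x) * x) u := h2.cos
      have h5 := (((h1.pow 2).mul h3).div_const x).sub ((h1.mul h4).const_mul (2 / (l * x ^ 2)))
      have h6 := h5.sub (h3.const_mul (2 / (l ^ 2 * x ^ 3)))
      refine h6.congr_deriv ?_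
      have hl0 := hl.ne'
      norm_num
      field_simp
      ring
    rw [intervalIntegral.integral_eq_sub_of_hasDerivAt hd
      (by apply Continuous.intervalIntegrable; fun_prop)]
    simp only [zero_mul, Real.sin_zero, Real.cos_zero, zero_div, sub_zero, mul_one, mul_zero]
    rw [div_self hl.ne']
    field_simp
    ring
  rw [h1]
  have h2 : |Real.sin (l * x) / (l * x)| ≤ 1 := by
    rw [abs_div, div_le_one (abs_pos.2 hy)]
    exact Real.abs_sin_le_abs
  have h3 : 1 - Real.sin (l * x) / (l * x) ≤ 2 := by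
    have := (abs_le.1 h2).1
    linarith
  have h4 : 0 < l * x ^ 2 := by positivity
  calc 2 / (l * x ^ 2) * (1 - Real.sin (l * x) / (l * x)) ≤ 2 / (l * x ^ 2) * 2 :=
        mul_le_mul_of_nonneg_left h3 (by positivity)
    _ = 4 / (l * x ^ 2) := by ring

/-- lower bound for the main term -/
theorem main_lower {l L : ℝ} (hl : 10 ≤ l) (hL : l ≤ L) :
    L / 4 ≤ (∫ u in (0 : ℝ)..L, W1 l u * (((1 / Real.sqrt (2 * Real.pi) : ℝ) : ℂ) *
        ((L * Real.exp (-u ^ 2 / 2) : ℝ) : ℂ))).re := by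
  have hl0 : 0 < l := by linarith
  have hL0 : 0 < L := by linarith
  have hs0 : 0 < Real.sqrt (2 * Real.pi) := by positivity
  have h0 : ∀ u, W1 l u * (((1 / Real.sqrt (2 * Real.pi) : ℝ) : ℂ) *
        ((L * Real.exp (-u ^ 2 / 2) : ℝ) : ℂ)) =
      ((L / Real.sqrt (2 * Real.pi) * (max 0 (1 - |u| / l) ^ 2 * Real.exp (-u ^ 2 / 2)) : ℝ) : ℂ) := by
    intro u
    unfold W1
    push_cast
    ring
  have h1 : (∫ u in (0 : ℝ)..L, W1 l u * (((1 / Real.sqrt (2 * Real.pi) : ℝ) : ℂ) *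
        ((L * Real.exp (-u ^ 2 / 2) : ℝ) : ℂ))) =
      ((L / Real.sqrt (2 * Real.pi) *
        ∫ u in (0 : ℝ)..L, max 0 (1 - |u| / l) ^ 2 * Real.exp (-u ^ 2 / 2) : ℝ) : ℂ) := by
    rw [intervalIntegral.integral_congr (fun u _ => h0 u), intervalIntegral.integral_ofReal,
      intervalIntegral.integral_const_mul]
  rw [h1, Complex.ofReal_re]
  have hint : ∀ a b : ℝ, IntervalIntegrable
      (fun u => max 0 (1 - |u| / l) ^ 2 * Real.exp (-u ^ 2 / 2)) volume a b := by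
    intro a b
    apply Continuous.intervalIntegrable
    fun_prop
  have h2 : ∫ u in (0 : ℝ)..1, (1 - 2 * u / l - u ^ 2 / 2) ≤
      ∫ u in (0 : ℝ)..1, max 0 (1 - |u| / l) ^ 2 * Real.exp (-u ^ 2 / 2) := by
    apply intervalIntegral.integral_mono_on (by norm_num)
    · apply Continuous.intervalIntegrable
      fun_prop
    · exact hint 0 1
    · intro u hu
      rw [MkB.max_val hl0 hu.1 (by linarith [hu.2])]
      have e1 : 1 - u ^ 2 / 2 ≤ Real.exp (-u ^ 2 / 2) := by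
        have := Real.add_one_le_exp (-u ^ 2 / 2)
        linarith
      have e2 : 1 - 2 * u / l ≤ (1 - u / l) ^ 2 := by
        have : (1 - u / l) ^ 2 = 1 - 2 * u / l + (u / l) ^ 2 := by ring
        rw [this]
        have := sq_nonneg (u / l)
        linarith
      have e3 : 0 ≤ u / l := div_nonneg hu.1 hl0.le
      have e4 : u / l ≤ 1 / 10 := by
        rw [div_le_iff₀ hl0]
        linarith [hu.2]
      have e5 : 0 ≤ 1 - 2 * u / l := by
        have : 2 * u / l = 2 * (u / l) := by ring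
        rw [this]
        linarith
      have e6 : 0 ≤ 1 - u ^ 2 / 2 := by nlinarith [hu.1, hu.2]
      have e7 : (1 - 2 * u / l) * (1 - u ^ 2 / 2) ≤ (1 - u / l) ^ 2 * Real.exp (-u ^ 2 / 2) :=
        mul_le_mul e2 e1 e6 (sq_nonneg _)
      have e8 : 0 ≤ (2 * u / l) * (u ^ 2 / 2) := by
        have := hu.1
        positivity
      nlinarith
  have h3 : ∫ u in (0 : ℝ)..1, (1 - 2 * u / l - u ^ 2 / 2) = 5 / 6 - 1 / l := by
    have hd : ∀ u ∈ uIcc (0 : ℝ) 1, HasDerivAt (fun u : ℝ => u - u ^ 2 / l - u ^ 3 / 6)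
        (1 - 2 * u / l - u ^ 2 / 2) u := by
      intro u _
      have a1 := ((hasDerivAt_id u).sub (((hasDerivAt_id u).pow 2).div_const l)).sub
        (((hasDerivAt_id u).pow 3).div_const 6)
      refine a1.congr_deriv ?_
      simp
      ring
    rw [intervalIntegral.integral_eq_sub_of_hasDerivAt hd
      (by apply Continuous.intervalIntegrable; fun_prop)]
    ring
  have h4 : ∫ u in (0 : ℝ)..L, max 0 (1 - |u| / l) ^ 2 * Real.exp (-u ^ 2 / 2) =
      (∫ u in (0 : ℝ)..1, max 0 (1 - |u| / l) ^ 2 * Real.exp (-u ^ 2 / 2)) +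
      ∫ u in (1 : ℝ)..L, max 0 (1 - |u| / l) ^ 2 * Real.exp (-u ^ 2 / 2) :=
    (intervalIntegral.integral_add_adjacent_intervals (hint 0 1) (hint 1 L)).symm
  have h5 : 0 ≤ ∫ u in (1 : ℝ)..L, max 0 (1 - |u| / l) ^ 2 * Real.exp (-u ^ 2 / 2) :=
    intervalIntegral.integral_nonneg (by linarith) (fun u _ => by positivity)
  have h6 : 1 / l ≤ 1 / 10 := one_div_le_one_div_of_le (by norm_num) hl
  have h7 : (7 : ℝ) / 10 ≤ ∫ u in (0 : ℝ)..L, max 0 (1 - |u| / l) ^ 2 * Real.exp (-u ^ 2 / 2) := by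
    linarith
  have h8 : Real.sqrt (2 * Real.pi) ≤ 14 / 5 := by
    rw [Real.sqrt_le_left (by norm_num)]
    have := Real.pi_lt_d2
    linarith
  have h9 : L / (14 / 5) ≤ L / Real.sqrt (2 * Real.pi) :=
    div_le_div_of_nonneg_left hL0.le hs0 h8
  calc L / 4 = L / (14 / 5) * (7 / 10) := by ring
    _ ≤ _ := mul_le_mul h9 h7 (by norm_num) (by positivity)

/-- if there is no zero near `t` then the zero side is small -/
theorem re_zs_le {T l X t : ℝ} (hT : 10 ≤ T) (hl : 0 < l) (hlL : l ≤ Real.log T) (hX : 0 < X)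
    (h : ∀ s ∈ ZZ T, X / Real.log T < |s.im - t|) :
    (zs T t (W1 l)).re ≤ 8 * Real.log T ^ 2 / (l * X ^ 2) * Mk T X t := by
  have hL : 0 < Real.log T := Real.log_pos (by linarith)
  rw [MkB.zs_eq (by linarith), MkB.Mk_eq (by linarith), Complex.re_sum, Finset.mul_sum]
  refine Finset.sum_le_sum fun s hs => ?_
  have hs' : s ∈ ZZ T := (MkB.ZZ_finite (by linarith)).mem_toFinset.1 hs
  have hx := h s hs'
  set x : ℝ := s.im - t with hxd
  have hx0 : 0 < |x| := lt_of_le_of_lt (by positivity) hx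
  have hxne : x ≠ 0 := abs_pos.1 hx0
  have e3 : (mu s : ℂ) * (Real.exp (-x ^ 2 / 2) : ℂ) =
      (((mu s : ℝ) * Real.exp (-x ^ 2 / 2) : ℝ) : ℂ) := by push_cast; rfl
  rw [e3, Complex.re_ofReal_mul, MkB.re_int hl hlL]
  have e4 := int_cos_upper (x := x) hl hxne
  have hLx : X < Real.log T * |x| := by
    rw [div_lt_iff₀ hL] at hx
    linarith
  have hy : 1 ≤ (Real.log T * x / X) ^ 2 := by
    have h1 : 1 ≤ Real.log T * |x| / X := by
      rw [le_div_iff₀ hX]
      linarith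
    have h2 : (Real.log T * x / X) ^ 2 = (Real.log T * |x| / X) ^ 2 := by
      rw [div_pow, div_pow, mul_pow, mul_pow, sq_abs]
    rw [h2]
    nlinarith
  have e5 : 4 / (l * x ^ 2) ≤ 8 * Real.log T ^ 2 / (l * X ^ 2) /
      (1 + (Real.log T * x / X) ^ 2) := by
    have h1 : 4 / (l * x ^ 2) = 8 * Real.log T ^ 2 / (l * X ^ 2) /
        (2 * (Real.log T * x / X) ^ 2) := by
      field_simp
      ring
    rw [h1]
    apply div_le_div_of_nonneg_left (by positivity) (by positivity)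
    linarith
  calc (mu s : ℝ) * Real.exp (-x ^ 2 / 2) *
        ∫ u in (0 : ℝ)..l, (1 - u / l) ^ 2 * Real.cos (u * x)
      ≤ (mu s : ℝ) * Real.exp (-x ^ 2 / 2) * (8 * Real.log T ^ 2 / (l * X ^ 2) /
      (1 + (Real.log T * x / X) ^ 2)) :=
        mul_le_mul_of_nonneg_left (e4.trans e5) (by positivity)
    _ = _ := by ring

theorem Q1_cont (κ T : ℝ) (k : ℕ) : Continuous (Q1 κ T k) := by
  unfold Q1 QW
  refine continuous_const.mul (continuous_finsetSum _ fun p hp => ?_)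
  have hp0 : (p : ℂ) ≠ 0 := by
    exact_mod_cast (Finset.mem_filter.mp hp).2.ne_zero
  refine (continuous_const.mul ?_).mul continuous_const
  refine Continuous.const_cpow ?_ (Or.inl hp0)
  fun_prop

/-- the pointwise inequality -/
theorem pointwise (hRH : RHs) (κ : ℝ) (hκ : 0 < κ) (hκ1 : κ < 1 / 2) :
    ∀ k : ℕ, 32 ≤ k → ∃ T0 : ℝ, 10 ≤ T0 ∧ ∀ T : ℝ, T0 ≤ T → ∀ X : ℝ, 0 < X → ∀ t : ℝ,
    T + Real.log T ≤ t → t ≤ 2 * T - Real.log T →
    (∀ s ∈ ZZ T, X / Real.log T < |s.im - t|) →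
    1 ≤ 512 * k / X ^ 2 * Mk T X t + (16 * ‖Q1 κ T k t‖) ^ (2 * k) := by
  obtain ⟨C1, T1, hC1, hT1, h1⟩ := EFW2 hRH
  obtain ⟨C2, hC2, h2⟩ := prime_part2
  intro k hk
  have hk0 : (32 : ℝ) ≤ k := by exact_mod_cast hk
  set M : ℝ := 4 * k * (10 + 128 * C2) + 32 * (24 + C1) with hM
  refine ⟨max T1 (Real.exp M), le_max_of_le_left hT1, ?_⟩
  intro T hT X hX t ht1 ht2 hno
  have hTT1 : T1 ≤ T := (le_max_left _ _).trans hT
  have hT10 : 10 ≤ T := hT1.trans hTT1
  have hLM : M ≤ Real.log T := by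
    rw [Real.le_log_iff_exp_le (by linarith)]
    exact (le_max_right _ _).trans hT
  have hL : 0 < Real.log T := Real.log_pos (by linarith)
  set L : ℝ := Real.log T with hLd
  have hk1 : 1 ≤ k := by omega
  have hl := MkB.ell_pos hκ1 hT10 hk1
  have hl2 := MkB.ell_le_log hκ hT10 hk1
  have hl3 := MkB.ell_ge hκ1 hT10 hk1
  have hl4 : ell κ T k ≤ L / (2 * k) := by
    unfold ell
    apply div_le_div_of_nonneg_right _ (by positivity)
    nlinarith
  set l := ell κ T k with hld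
  rw [← hLd] at hl2 hl3
  have hA1 : 10 + 128 * C2 ≤ l := by
    refine le_trans ?_ hl3
    rw [le_div_iff₀ (by positivity)]
    have : 0 < 32 * (24 + C1) := by positivity
    nlinarith
  have hA2 : 32 * (24 + C1) ≤ L := by
    have : 0 ≤ 4 * (k : ℝ) * (10 + 128 * C2) := by positivity
    linarith
  have hl10 : 10 ≤ l := by
    have : 0 < 128 * C2 := by positivity
    linarith
  have e1 := h1 T hTT1 t ht1 ht2 (W1 l) 1 (MkB.W1_cont l) (fun u _ => MkB.W1_norm hl u)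
  have e2 := h2 T hT10 t l hl hl2 (W1 l) 1 (fun u _ => MkB.W1_norm hl u)
    (fun u hu => MkB.W1_zero hl hu)
  have e3 := main_lower hl10 hl2
  have e4 := re_zs_le hT10 hl hl2 hX hno
  rw [← hLd] at e1 e2 e4
  set MM : ℂ := ∫ u in (0 : ℝ)..L, W1 l u * (((1 / Real.sqrt (2 * Real.pi) : ℝ) : ℂ) *
        ((L * Real.exp (-u ^ 2 / 2) : ℝ) : ℂ)) with hMM
  -- real parts
  have e5 : MM.re ≤ (zs T t (W1 l)).re + ‖ps T t (W1 l)‖ + C1 * 1 := by
    have a1 : MM = zs T t (W1 l) + ps T t (W1 l) - (zs T t (W1 l) + ps T t (W1 l) - MM) := by ring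
    have a2 : MM.re = (zs T t (W1 l)).re + (ps T t (W1 l)).re -
        (zs T t (W1 l) + ps T t (W1 l) - MM).re := by
      rw [← Complex.add_re, ← Complex.sub_re]
      exact congrArg Complex.re a1
    have a3 : (ps T t (W1 l)).re ≤ ‖ps T t (W1 l)‖ := Complex.re_le_norm _
    have a4 : -(zs T t (W1 l) + ps T t (W1 l) - MM).re ≤ C1 * 1 := by
      have := (abs_le.1 (Complex.abs_re_le_norm (zs T t (W1 l) + ps T t (W1 l) - MM))).1
      linarith
    linarith
  have e6 : ‖ps T t (W1 l)‖ ≤ L * ‖Q1 κ T k t‖ +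
      1 * (4 * (l + 6) + C2 * (L * Real.exp (-l ^ 2 / 4))) := by
    have a1 : ps T t (W1 l) = (ps T t (W1 l) - (L : ℂ) * QW T t l (W1 l)) +
        (L : ℂ) * QW T t l (W1 l) := by ring
    have a2 : ‖(L : ℂ) * QW T t l (W1 l)‖ = L * ‖Q1 κ T k t‖ := by
      rw [norm_mul, Complex.norm_real, Real.norm_eq_abs, abs_of_pos hL]
      rfl
    calc ‖ps T t (W1 l)‖ = ‖(ps T t (W1 l) - (L : ℂ) * QW T t l (W1 l)) +
        (L : ℂ) * QW T t l (W1 l)‖ := congrArg _ a1
      _ ≤ ‖ps T t (W1 l) - (L : ℂ) * QW T t l (W1 l)‖ + ‖(L : ℂ) * QW T t l (W1 l)‖ :=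
        norm_add_le _ _
      _ ≤ _ := by
        rw [a2]
        linarith
  have e7 : C2 * (L * Real.exp (-l ^ 2 / 4)) ≤ L / 32 := by
    have a1 : Real.exp (-l ^ 2 / 4) ≤ 4 / l ^ 2 := by
      have a2 : l ^ 2 / 4 ≤ Real.exp (l ^ 2 / 4) := by
        have := Real.add_one_le_exp (l ^ 2 / 4)
        linarith
      have a3 : -l ^ 2 / 4 = -(l ^ 2 / 4) := by ring
      rw [a3, Real.exp_neg]
      calc (Real.exp (l ^ 2 / 4))⁻¹ ≤ (l ^ 2 / 4)⁻¹ := inv_anti₀ (by positivity) a2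
        _ = 4 / l ^ 2 := by rw [inv_div]
    have a2 : C2 * (4 / l ^ 2) ≤ 1 / 32 := by
      rw [mul_div_assoc', div_le_div_iff₀ (by positivity) (by norm_num)]
      nlinarith
    calc C2 * (L * Real.exp (-l ^ 2 / 4)) = L * (C2 * Real.exp (-l ^ 2 / 4)) := by ring
      _ ≤ L * (1 / 32) := by
        apply mul_le_mul_of_nonneg_left _ hL.le
        exact (mul_le_mul_of_nonneg_left a1 hC2.le).trans a2
      _ = L / 32 := by ring
  have e8 : 4 * l ≤ L / 16 := by
    have : L / (2 * k) ≤ L / 64 := by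
      apply div_le_div_of_nonneg_left hL.le (by norm_num)
      linarith
    linarith
  have hMk := MkB.Mk_nonneg (T := T) (by linarith) X t
  have e9 : 8 * L ^ 2 / (l * X ^ 2) * Mk T X t ≤ L * (32 * k / X ^ 2 * Mk T X t) := by
    have a1 : 8 * L ^ 2 / (l * X ^ 2) ≤ L * (32 * k / X ^ 2) := by
      rw [mul_div_assoc', div_le_div_iff₀ (by positivity) (by positivity)]
      have a2 : L ≤ 4 * k * l := by
        rw [div_le_iff₀ (by positivity)] at hl3
        linarith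
      have a3 : 0 ≤ L * X ^ 2 := by positivity
      nlinarith [mul_le_mul_of_nonneg_left a2 a3]
    calc _ ≤ L * (32 * k / X ^ 2) * Mk T X t := mul_le_mul_of_nonneg_right a1 hMk
      _ = _ := by ring
  have e10 : L * (1 / 8) ≤ L * (32 * k / X ^ 2 * Mk T X t + ‖Q1 κ T k t‖) := by
    have : L * (32 * k / X ^ 2 * Mk T X t + ‖Q1 κ T k t‖) =
      L * (32 * k / X ^ 2 * Mk T X t) + L * ‖Q1 κ T k t‖ := by ring
    rw [this]
    linarith
  have e11 := le_of_mul_le_mul_left e10 hL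
  have e12 : 1 ≤ 256 * k / X ^ 2 * Mk T X t + 8 * ‖Q1 κ T k t‖ := by
    have : 256 * k / X ^ 2 * Mk T X t = 8 * (32 * k / X ^ 2 * Mk T X t) := by ring
    rw [this]
    linarith
  have hp : 0 ≤ (16 * ‖Q1 κ T k t‖) ^ (2 * k) := by positivity
  have hm : 0 ≤ 512 * k / X ^ 2 * Mk T X t := by positivity
  rcases le_total (1 / 2) (256 * k / X ^ 2 * Mk T X t) with h | h
  · have : 512 * k / X ^ 2 * Mk T X t = 2 * (256 * k / X ^ 2 * Mk T X t) := by ring
    linarith
  · have h3 : 1 ≤ 16 * ‖Q1 κ T k t‖ := by linarith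
    have h4 := one_le_pow₀ h3 (n := 2 * k)
    linarith

end GT

/-! ## 13. GAPTAIL : very large gaps are rare -/
theorem GAPTAIL (hRH : RHs) (κ : ℝ) (hκ : 0 < κ) (hκ1 : κ < 1 / 2) (ε : ℝ) (hε : 0 < ε) :
    ∃ X T0 : ℝ, 1 ≤ X ∧ 10 ≤ T0 ∧ ∀ T : ℝ, T0 ≤ T → ∃ G : ℝ → ℝ, Continuous G ∧ (∀ t, 0 ≤ G t) ∧
    (∀ t : ℝ, T + Real.log T ≤ t → t ≤ 2 * T - Real.log T →
      (∀ s ∈ ZZ T, X / Real.log T < |s.im - t|) → 1 ≤ G t) ∧
    ∀ t0 V1 V2 : ℝ, V1 ≤ V2 → T + Real.log T ≤ V1 → V2 ≤ 2 * T - Real.log T →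
      ∫ t in V1..V2, wt t0 (dd κ T) t * G t ≤ ε * dd κ T := by
  obtain ⟨CM, hCM, hMean⟩ := SP.Mk_mean hRH κ hκ hκ1
  obtain ⟨CQ, TQ, hCQ, hTQ, hmom⟩ := SP.mom_Q κ 1 hκ hκ1 one_pos
  -- choice of `k`
  obtain ⟨k1, hk1⟩ := exists_nat_ge (512 * CQ)
  obtain ⟨k2, hk2⟩ := exists_pow_lt_of_lt_one (show (0 : ℝ) < ε / 2 by positivity)
    (show (1 / 2 : ℝ) < 1 by norm_num)
  set k : ℕ := k1 + k2 + 32 with hkd
  have hk : 32 ≤ k := by omega
  have hk0 : (32 : ℝ) ≤ k := by exact_mod_cast hk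
  have hkQ : 512 * CQ ≤ k := by
    refine hk1.trans ?_
    have : k1 ≤ k := by omega
    exact_mod_cast this
  have hpowk : (256 * CQ / (k : ℝ)) ^ k ≤ ε / 2 := by
    have a1 : 256 * CQ / (k : ℝ) ≤ 1 / 2 := by
      rw [div_le_iff₀ (by linarith)]
      linarith
    calc (256 * CQ / (k : ℝ)) ^ k ≤ (1 / 2) ^ k := pow_le_pow_left₀ (by positivity) a1 k
      _ ≤ (1 / 2) ^ k2 := pow_le_pow_of_le_one (by norm_num) (by norm_num) (by omega)
      _ ≤ ε / 2 := hk2.le
  obtain ⟨Tp, hTp, hpt⟩ := GT.pointwise hRH κ hκ hκ1 k hk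
  -- choice of `X`
  obtain ⟨N, hN⟩ := exists_nat_ge (1024 * k * CM / ε)
  set X : ℕ := N + 1 with hXd
  have hX1 : (1 : ℝ) ≤ (X : ℝ) := by
    have : 1 ≤ X := by omega
    exact_mod_cast this
  have hX2 : 512 * k * CM / X ≤ ε / 2 := by
    have a1 : 1024 * k * CM / ε ≤ X := by
      refine hN.trans ?_
      have : N ≤ X := by omega
      exact_mod_cast this
    rw [div_le_iff₀ hε] at a1
    rw [div_le_iff₀ (by linarith)]
    linarith
  obtain ⟨TM, hTM, hMk⟩ := hMean X (by omega)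
  refine ⟨X, max (max TM TQ) Tp, hX1, ?_, ?_⟩
  · exact (hTM.trans (le_max_left _ _)).trans (le_max_left _ _)
  intro T hT
  have hTM' : TM ≤ T := ((le_max_left _ _).trans (le_max_left _ _)).trans hT
  have hTQ' : TQ ≤ T := ((le_max_right _ _).trans (le_max_left _ _)).trans hT
  have hTp' : Tp ≤ T := (le_max_right _ _).trans hT
  have hT10 : 10 ≤ T := hTM.trans hTM'
  have hT1 : 1 ≤ T := by linarith
  have hD := SP.ExpAux.dd_pos (κ := κ) hT10
  refine ⟨fun t => 512 * k / (X : ℝ) ^ 2 * Mk T X t + (16 * ‖SP.Q1 κ T k t‖) ^ (2 * k), ?_, ?_, ?_, ?_⟩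
  · refine (continuous_const.mul (SP.ExpAux.Mk_cont hT1 _)).add ?_
    exact (continuous_const.mul (GT.Q1_cont κ T k).norm).pow _
  · intro t
    have := SP.ExpAux.Mk_nonneg hT1 (X : ℝ) t
    positivity
  · intro t ht1 ht2 hno
    exact hpt T hTp' X (by linarith) t ht1 ht2 hno
  · intro t0 V1 V2 hV hV1 hV2
    have hm := (hmom T hTQ' t0 k (by omega)).1
    have i1 : IntervalIntegrable (fun t => wt t0 (dd κ T) t * Mk T X t) volume V1 V2 :=
      ((SP.ExpAux.wt_cont t0 _).mul (SP.ExpAux.Mk_cont hT1 _)).intervalIntegrable _ _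
    have i2 : IntervalIntegrable (fun t => wt t0 (dd κ T) t * ‖SP.Q1 κ T k t‖ ^ (2 * k))
        volume V1 V2 := hm.1.intervalIntegrable
    have a1 : ∀ t, wt t0 (dd κ T) t * (512 * k / (X : ℝ) ^ 2 * Mk T X t +
        (16 * ‖SP.Q1 κ T k t‖) ^ (2 * k)) =
        512 * k / (X : ℝ) ^ 2 * (wt t0 (dd κ T) t * Mk T X t) +
        16 ^ (2 * k) * (wt t0 (dd κ T) t * ‖SP.Q1 κ T k t‖ ^ (2 * k)) := by
      intro t
      rw [mul_pow]
      ring
    rw [intervalIntegral.integral_congr (fun t _ => a1 t),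
      intervalIntegral.integral_add (i1.const_mul _) (i2.const_mul _),
      intervalIntegral.integral_const_mul, intervalIntegral.integral_const_mul]
    have b1 := hMk T hTM' t0 V1 V2 hV hV1 hV2
    have b2 : ∫ t in V1..V2, wt t0 (dd κ T) t * ‖SP.Q1 κ T k t‖ ^ (2 * k) ≤
        dd κ T * (CQ / k) ^ k := by
      refine le_trans ?_ hm.2
      rw [intervalIntegral.integral_of_le hV]
      exact setIntegral_le_integral hm.1 (Eventually.of_forall fun t => by
        have := SP.ExpAux.wt_nonneg t0 (dd κ T) t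
        positivity)
    have c1 : 512 * k / (X : ℝ) ^ 2 * ∫ t in V1..V2, wt t0 (dd κ T) t * Mk T X t ≤
        ε / 2 * dd κ T := by
      calc 512 * k / (X : ℝ) ^ 2 * ∫ t in V1..V2, wt t0 (dd κ T) t * Mk T X t
          ≤ 512 * k / (X : ℝ) ^ 2 * (CM * X * dd κ T) :=
            mul_le_mul_of_nonneg_left b1 (by positivity)
        _ = (512 * k * CM / X) * dd κ T := by
            have : (X : ℝ) ≠ 0 := by linarith
            field_simp
        _ ≤ ε / 2 * dd κ T := mul_le_mul_of_nonneg_right hX2 hD.le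
    have c2 : (16 : ℝ) ^ (2 * k) * ∫ t in V1..V2, wt t0 (dd κ T) t * ‖SP.Q1 κ T k t‖ ^ (2 * k) ≤
        ε / 2 * dd κ T := by
      calc (16 : ℝ) ^ (2 * k) * ∫ t in V1..V2, wt t0 (dd κ T) t * ‖SP.Q1 κ T k t‖ ^ (2 * k)
          ≤ (16 : ℝ) ^ (2 * k) * (dd κ T * (CQ / k) ^ k) :=
            mul_le_mul_of_nonneg_left b2 (by positivity)
        _ = (256 * CQ / (k : ℝ)) ^ k * dd κ T := by
            rw [pow_mul, show (16 : ℝ) ^ 2 = 256 by norm_num, mul_div_assoc, mul_pow]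
            ring
        _ ≤ ε / 2 * dd κ T := mul_le_mul_of_nonneg_right hpowk hD.le
    linarith

end LG
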