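import Pool.Agent.H297R2.LG.Defs
import Pool.Agent.H382P.ExpMom

/-! GAPTAIL (helper793): very large gaps between the zeros are rare. -/

open Complex Filter Topology Set MeasureTheory

namespace LG

open SG (hh nn dd dl ord NZ)
open SP (RHs ZZ mu wt Mk Par Eb PS chi qq tt)

namespace GT

open SP

/-! ### the explicit formula with its main term -/

theorem EFW2 (hRH : RHs) : ∃ C T0 : ℝ, 0 < C ∧ 10 ≤ T0 ∧ ∀ T : ℝ, T0 ≤ T → ∀ t : ℝ,
    T + Real.log T ≤ t → t ≤ 2 * T - Real.log T → ∀ (W : ℝ → ℂ) (K : ℝ), Continuous W →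
    (∀ u ∈ Set.Icc 0 (Real.log T), ‖W u‖ ≤ K) →
    ‖zs T t W + ps T t W - ∫ u in (0 : ℝ)..Real.log T,
      W u * (((1 / Real.sqrt (2 * Real.pi) : ℝ) : ℂ) *
        ((Real.log T * Real.exp (-u ^ 2 / 2) : ℝ) : ℂ))‖ ≤ C * K := by
  classical
  obtain ⟨C, T0, hC, hT0, hEF⟩ := EF hRH
  refine ⟨C, T0, by positivity, hT0, ?_⟩
  intro T hT t ht1 ht2 W K hWc hW
  have hT10 : 10 ≤ T := hT0.trans hT
  have hL1 : 1 ≤ Real.log T := by
    rw [Real.le_log_iff_exp_le (by linarith)]
    have := Real.exp_one_lt_d9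
    linarith
  set L : ℝ := Real.log T with hLdef
  have hL : 0 ≤ L := by linarith
  have hK : 0 ≤ K := (norm_nonneg _).trans (hW 0 ⟨le_rfl, hL⟩)
  -- zero side
  have hfin : (ZZ T).Finite := H370.zset_finite H370.good_zeta T (2 * T) (by linarith)
  set Z : ℝ → ℂ := fun u => ∑ᶠ s ∈ ZZ T, (mu s : ℂ) * (Real.exp (-(s.im - t) ^ 2 / 2) : ℂ) *
        cexp (I * ((u * (s.im - t) : ℝ) : ℂ)) with hZ
  have hZsum : ∀ u, Z u = ∑ s ∈ hfin.toFinset, (mu s : ℂ) *
      (Real.exp (-(s.im - t) ^ 2 / 2) : ℂ) * cexp (I * ((u * (s.im - t) : ℝ) : ℂ)) := by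
    intro u
    exact finsum_mem_eq_finite_toFinset_sum _ hfin
  have hZc : Continuous Z := by
    have : Z = fun u => ∑ s ∈ hfin.toFinset, (mu s : ℂ) *
      (Real.exp (-(s.im - t) ^ 2 / 2) : ℂ) * cexp (I * ((u * (s.im - t) : ℝ) : ℂ)) := by
      ext u
      exact hZsum u
    rw [this]
    fun_prop
  have hzs : zs T t W = ∫ u in (0 : ℝ)..L, W u * Z u := by
    unfold zs
    rw [finsum_mem_eq_finite_toFinset_sum _ hfin]
    have h1 : ∀ u, W u * Z u = ∑ s ∈ hfin.toFinset, ((mu s : ℂ) *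
      (Real.exp (-(s.im - t) ^ 2 / 2) : ℂ)) * (W u * cexp (I * ((u * (s.im - t) : ℝ) : ℂ))) := by
      intro u
      rw [hZsum, Finset.mul_sum]
      apply Finset.sum_congr rfl
      intro s _
      ring
    simp_rw [h1]
    rw [intervalIntegral.integral_finsetSum]
    · apply Finset.sum_congr rfl
      intro s _
      rw [intervalIntegral.integral_const_mul]
    · intro s _
      apply Continuous.intervalIntegrable
      fun_prop
  -- prime side
  set P : ℝ → ℂ := fun u => ∑' n : ℕ, efa t n * (Real.exp (-(u - Real.log n) ^ 2 / 2) : ℂ) with hP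
  have hBs : Summable (fun n => Real.exp (L ^ 2 / 2) * ppG (1 / 4) n) :=
    (ppG_summable _ (by norm_num)).mul_left _
  have hPsum : ∀ u ∈ Set.Icc 0 L, Summable (fun n : ℕ => efa t n *
      (Real.exp (-(u - Real.log n) ^ 2 / 2) : ℂ)) := fun u hu =>
    Summable.of_norm_bounded hBs (fun n => efa_bound t L u hu n)
  have hPc : ContinuousOn P (Set.Icc 0 L) := by
    apply continuousOn_tsum (u := fun n => Real.exp (L ^ 2 / 2) * ppG (1 / 4) n)
    · intro n
      apply Continuous.continuousOn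
      fun_prop
    · exact hBs
    · intro n u hu
      exact efa_bound t L u hu n
  have hps : ps T t W = ∫ u in (0 : ℝ)..L, (1 / Real.sqrt (2 * Real.pi) : ℝ) * (W u * P u) := by
    rw [intervalIntegral.integral_const_mul]
    have h1 : HasSum (fun n : ℕ => ∫ u in (0 : ℝ)..L, W u *
        (efa t n * (Real.exp (-(u - Real.log n) ^ 2 / 2) : ℂ))) (∫ u in (0 : ℝ)..L, W u * P u) := by
      apply intervalIntegral.hasSum_integral_of_dominated_convergence
        (bound := fun n _ => K * (Real.exp (L ^ 2 / 2) * ppG (1 / 4) n))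
      · intro n
        apply Continuous.aestronglyMeasurable
        fun_prop
      · intro n
        refine Eventually.of_forall fun u hu => ?_
        rw [Set.uIoc_of_le hL] at hu
        rw [norm_mul]
        exact mul_le_mul (hW u ⟨hu.1.le, hu.2⟩) (efa_bound t L u ⟨hu.1.le, hu.2⟩ n)
          (norm_nonneg _) hK
      · exact Eventually.of_forall fun u _ => hBs.mul_left K
      · exact intervalIntegrable_const
      · refine Eventually.of_forall fun u hu => ?_
        rw [Set.uIoc_of_le hL] at hu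
        exact (hPsum u ⟨hu.1.le, hu.2⟩).hasSum.mul_left _
    have h2 := h1.mul_left (((1 / Real.sqrt (2 * Real.pi) : ℝ) : ℂ))
    rw [← h2.tsum_eq]
    unfold ps bt
    apply tsum_congr
    intro n
    have h3 : ∀ u : ℝ, W u * (efa t n * (Real.exp (-(u - Real.log n) ^ 2 / 2) : ℂ)) =
        efa t n * (W u * (Real.exp (-(u - Real.log n) ^ 2 / 2) : ℂ)) := by
      intro u
      ring
    simp_rw [h3]
    rw [intervalIntegral.integral_const_mul]
    unfold efa
    ring
  have hI1 : IntervalIntegrable (fun u => W u * Z u) volume 0 L :=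
    (hWc.mul hZc).intervalIntegrable _ _
  have hI2 : IntervalIntegrable (fun u => (1 / Real.sqrt (2 * Real.pi) : ℝ) * (W u * P u))
      volume 0 L := by
    apply ContinuousOn.intervalIntegrable
    rw [Set.uIcc_of_le hL]
    exact continuousOn_const.mul (hWc.continuousOn.mul hPc)
  have hI3 : IntervalIntegrable (fun u => W u * (((1 / Real.sqrt (2 * Real.pi) : ℝ) : ℂ) *
        ((L * Real.exp (-u ^ 2 / 2) : ℝ) : ℂ))) volume 0 L := by
    apply Continuous.intervalIntegrable
    fun_prop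
  rw [hzs, hps, ← intervalIntegral.integral_add hI1 hI2,
    ← intervalIntegral.integral_sub (hI1.add hI2) hI3]
  have hpt : ∀ u ∈ Set.Icc 0 L, ‖W u * Z u + (1 / Real.sqrt (2 * Real.pi) : ℝ) * (W u * P u) -
      W u * (((1 / Real.sqrt (2 * Real.pi) : ℝ) : ℂ) *
        ((L * Real.exp (-u ^ 2 / 2) : ℝ) : ℂ))‖ ≤ C * K * Real.exp (-u) := by
    intro u hu
    have h1 := hEF T hT u t hu.1 hu.2 ht1 ht2
    have h2 : W u * Z u + (1 / Real.sqrt (2 * Real.pi) : ℝ) * (W u * P u) -
        W u * (((1 / Real.sqrt (2 * Real.pi) : ℝ) : ℂ) *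
          ((L * Real.exp (-u ^ 2 / 2) : ℝ) : ℂ)) =
        W u * (Z u - (1 / Real.sqrt (2 * Real.pi) : ℝ) * ((L * Real.exp (-u ^ 2 / 2) : ℝ) -
          P u)) := by
      ring
    rw [h2, norm_mul]
    calc ‖W u‖ * ‖Z u - (1 / Real.sqrt (2 * Real.pi) : ℝ) * ((L * Real.exp (-u ^ 2 / 2) : ℝ) -
          P u)‖
        ≤ K * (C * Real.exp (-u)) := mul_le_mul (hW u hu) h1 (norm_nonneg _) hK
      _ = C * K * Real.exp (-u) := by ring
  have hIb : IntervalIntegrable (fun u => C * K * Real.exp (-u)) volume 0 L := by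
    apply Continuous.intervalIntegrable
    fun_prop
  refine (intervalIntegral.norm_integral_le_of_norm_le hL
    (Eventually.of_forall fun u hu => hpt u ⟨hu.1.le, hu.2⟩) hIb).trans ?_
  rw [intervalIntegral.integral_const_mul]
  have hexp : ∫ u in (0 : ℝ)..L, Real.exp (-u) ≤ 1 := by
    have h1 : ∫ u in (0 : ℝ)..L, Real.exp (-u) = 1 - Real.exp (-L) := by
      rw [intervalIntegral.integral_comp_neg (fun u => Real.exp u), integral_exp]
      simp
    rw [h1]
    have := Real.exp_pos (-L)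
    linarith
  have hCK : 0 ≤ C * K := by positivity
  have := mul_le_mul_of_nonneg_left hexp hCK
  linarith

/-! ### the prime part -/

/-- the contribution of higher prime powers -/
lemma ppf_inner2 (T t : ℝ) (hT : 1 ≤ T) (W : ℝ → ℂ) (K l : ℝ) (hl0 : 0 < l)
    (hW : ∀ u ∈ Set.Icc 0 (Real.log T), ‖W u‖ ≤ K) (hl : ∀ u : ℝ, l ≤ u → W u = 0)
    (p : ℕ) (hp : p.Prime) :
    ‖∑' k : ℕ, ppf T t W (p ^ (k + 2))‖ ≤ 4 * K *
      ((if p ≤ ⌊Real.exp l⌋₊ then ArithmeticFunction.vonMangoldt p / p else 0) +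
        Real.log T * (Real.exp (-l ^ 2 / 4) * ppG (1 / 4) p)) := by
  have hL : 0 ≤ Real.log T := Real.log_nonneg hT
  have hK : 0 ≤ K := (norm_nonneg _).trans (hW 0 ⟨le_rfl, hL⟩)
  have hp2 : (2 : ℝ) ≤ p := by exact_mod_cast hp.two_le
  have hp0 : (0 : ℝ) < p := by linarith
  have hlp : 0 ≤ Real.log p := Real.log_natCast_nonneg p
  set r : ℝ := (p : ℝ) ^ (-(1 / 2) : ℝ) with hr
  have hr0 : 0 < r := Real.rpow_pos_of_pos hp0 _
  have hr2 : r ^ 2 = 1 / p := by
    rw [hr, ← Real.rpow_natCast, ← Real.rpow_mul hp0.le]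
    norm_num
    rw [Real.rpow_neg_one]
  have hr34 : r ≤ 3 / 4 := by
    have h1 : r ^ 2 ≤ (3 / 4) ^ 2 := by
      rw [hr2, div_le_iff₀ hp0]
      nlinarith
    exact le_of_sq_le_sq h1 (by norm_num)
  have hr1 : r < 1 := by linarith
  -- bound of bt
  set bb : ℝ := K * ((if p ≤ ⌊Real.exp l⌋₊ then 1 else 0) +
    Real.log T * (Real.exp (-l ^ 2 / 4) * Real.exp (-(1 / 4) * (Real.log p) ^ 2))) with hbb
  have hbt : ∀ k : ℕ, ‖bt T W ((p ^ (k + 2) : ℕ) : ℝ)‖ ≤ bb := by
    intro k
    rw [hbb]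
    by_cases hpT : p ≤ ⌊Real.exp l⌋₊
    · rw [if_pos hpT]
      refine (SP.bt_le T hT W K hW _).trans ?_
      have : 0 ≤ Real.log T * (Real.exp (-l ^ 2 / 4) * Real.exp (-(1 / 4) * (Real.log p) ^ 2)) := by
        positivity
      nlinarith
    · rw [if_neg hpT, zero_add]
      have hpT' : Real.exp l < p := by
        rw [not_le] at hpT
        exact (Nat.floor_lt (Real.exp_pos _).le).1 hpT
      have hlog : l ≤ Real.log p := by
        rw [Real.le_log_iff_exp_le hp0]
        exact hpT'.le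
      have hlogk : Real.log ((p ^ (k + 2) : ℕ) : ℝ) = (k + 2) * Real.log p := by
        push_cast
        rw [Real.log_pow]
        push_cast
        ring
      have hge : Real.log p ≤ Real.log ((p ^ (k + 2) : ℕ) : ℝ) - l := by
        rw [hlogk]
        have : 0 ≤ (k : ℝ) * Real.log p := by positivity
        nlinarith
      refine (bt_far T hT W K l hW hl _ (by linarith)).trans ?_
      have : Real.exp (-(Real.log ((p ^ (k + 2) : ℕ) : ℝ) - l) ^ 2 / 2) ≤
          Real.exp (-l ^ 2 / 4) * Real.exp (-(1 / 4) * (Real.log p) ^ 2) := by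
        rw [← Real.exp_add]
        apply Real.exp_le_exp.2
        nlinarith
      calc K * Real.exp (-(Real.log ((p ^ (k + 2) : ℕ) : ℝ) - l) ^ 2 / 2) * Real.log T
          ≤ K * (Real.exp (-l ^ 2 / 4) * Real.exp (-(1 / 4) * (Real.log p) ^ 2)) * Real.log T := by
            gcongr
        _ = K * (Real.log T * (Real.exp (-l ^ 2 / 4) *
              Real.exp (-(1 / 4) * (Real.log p) ^ 2))) := by ring
  have hbb0 : 0 ≤ bb := (norm_nonneg _).trans (hbt 0)
  have hterm : ∀ k : ℕ, ‖ppf T t W (p ^ (k + 2))‖ ≤ (Real.log p * r ^ 2 * bb) * r ^ k := by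
    intro k
    have hpos : 1 ≤ p ^ (k + 2) := Nat.one_le_pow _ _ hp.pos
    rw [ppf_norm T t W _ hpos, ArithmeticFunction.vonMangoldt_apply_pow (by omega),
      ArithmeticFunction.vonMangoldt_apply_prime hp]
    have h1 : ((p ^ (k + 2) : ℕ) : ℝ) ^ (-(1 / 2) : ℝ) = r ^ (k + 2) := by
      push_cast
      rw [hr, ← Real.rpow_natCast, ← Real.rpow_natCast, ← Real.rpow_mul hp0.le,
        ← Real.rpow_mul hp0.le]
      ring_nf
    rw [h1]
    calc Real.log p * r ^ (k + 2) * ‖bt T W ((p ^ (k + 2) : ℕ) : ℝ)‖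
        ≤ Real.log p * r ^ (k + 2) * bb := mul_le_mul_of_nonneg_left (hbt k) (by positivity)
      _ = (Real.log p * r ^ 2 * bb) * r ^ k := by ring
  have hgeo : HasSum (fun k : ℕ => (Real.log p * r ^ 2 * bb) * r ^ k)
      ((Real.log p * r ^ 2 * bb) * (1 - r)⁻¹) :=
    (hasSum_geometric_of_lt_one hr0.le hr1).mul_left _
  have h1 := tsum_of_norm_bounded hgeo hterm
  refine h1.trans ?_
  have h4 : (1 - r)⁻¹ ≤ 4 := by
    rw [inv_le_comm₀ (by linarith) (by norm_num)]
    linarith
  calc (Real.log p * r ^ 2 * bb) * (1 - r)⁻¹ ≤ (Real.log p * r ^ 2 * bb) * 4 :=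
        mul_le_mul_of_nonneg_left h4 (by positivity)
    _ = 4 * K * ((if p ≤ ⌊Real.exp l⌋₊ then Real.log p / p else 0) +
        Real.log T * (Real.exp (-l ^ 2 / 4) *
          (Real.log p * (1 / p) * Real.exp (-(1 / 4) * (Real.log p) ^ 2)))) := by
        rw [hbb, hr2]
        split_ifs <;> ring
    _ ≤ _ := by
        rw [ArithmeticFunction.vonMangoldt_apply_prime hp]
        apply mul_le_mul_of_nonneg_left _ (by positivity)
        apply add_le_add_right
        apply mul_le_mul_of_nonneg_left _ hL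
        apply mul_le_mul_of_nonneg_left _ (Real.exp_pos _).le
        unfold ppG
        apply mul_le_mul_of_nonneg_right _ (Real.exp_pos _).le
        apply mul_le_mul_of_nonneg_left _ hlp
        rw [← hr2, ← hr]
        nlinarith

theorem prime_part2 : ∃ C : ℝ, 0 < C ∧ ∀ T : ℝ, 10 ≤ T → ∀ t l : ℝ, 0 < l → l ≤ Real.log T →
    ∀ (W : ℝ → ℂ) (K : ℝ), (∀ u ∈ Set.Icc 0 (Real.log T), ‖W u‖ ≤ K) →
    (∀ u : ℝ, l ≤ u → W u = 0) →
    ‖ps T t W - (Real.log T : ℂ) * QW T t l W‖ ≤
      K * (4 * (l + 6) + C * (Real.log T * Real.exp (-l ^ 2 / 4))) := by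
  refine ⟨(∑' n, ppG (1 / 16) n) + 4 * (∑' n, ppG (1 / 4) n) + 1, ?_, ?_⟩
  · have h1 : 0 ≤ ∑' n, ppG (1 / 16) n := tsum_nonneg (ppG_nonneg _)
    have h2 : 0 ≤ ∑' n, ppG (1 / 4) n := tsum_nonneg (ppG_nonneg _)
    positivity
  intro T hT t l hl0 hlT W K hW hl
  have hT1 : (1 : ℝ) ≤ T := by linarith
  have hL1 : 1 ≤ Real.log T := by
    rw [Real.le_log_iff_exp_le (by linarith)]
    have := Real.exp_one_lt_d9
    linarith
  have hL : 0 ≤ Real.log T := by linarith
  have hK : 0 ≤ K := (norm_nonneg _).trans (hW 0 ⟨le_rfl, hL⟩)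
  have hsum := ppf_summable T t hT1 W K hW
  have hps : ps T t W = (∑' p : Nat.Primes, ppf T t W p) +
      ∑' (p : Nat.Primes) (k : ℕ), ppf T t W (p ^ (k + 2)) :=
    tsum_eq_tsum_primes_add_tsum_primes_of_support_subset_prime_powers hsum (ppf_support T t W)
  set S : Finset ℕ := (Finset.Icc 1 ⌊Real.exp (2 * l)⌋₊).filter Nat.Prime with hS
  have hQ : (Real.log T : ℂ) * QW T t l W = ∑ p ∈ S, ppf T t W p := by
    unfold QW
    rw [← mul_assoc]
    have : (Real.log T : ℂ) * ((1 / Real.log T : ℝ) : ℂ) = 1 := by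
      rw [← Complex.ofReal_mul]
      rw [mul_one_div_cancel (by positivity)]
      simp
    rw [this, one_mul]
    apply Finset.sum_congr rfl
    intro p hp
    unfold ppf
    rw [ArithmeticFunction.vonMangoldt_apply_prime (Finset.mem_filter.1 hp).2]
  -- primes
  set g : ℕ → ℂ := Set.indicator {p : ℕ | p.Prime} (ppf T t W) with hg
  have hgs : Summable g := hsum.indicator _
  have hA1 : (∑' p : Nat.Primes, ppf T t W p) = ∑' n, g n :=
    tsum_subtype {p : ℕ | p.Prime} (ppf T t W)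
  have hA2 : ∑ p ∈ S, ppf T t W p = ∑ p ∈ S, g p := by
    apply Finset.sum_congr rfl
    intro p hp
    rw [hg, Set.indicator_of_mem]
    exact (Finset.mem_filter.1 hp).2
  have hA3 : ∑ p ∈ S, g p = ∑' n, (if n ∈ S then g n else 0) := by
    rw [tsum_eq_sum (s := S)]
    · apply Finset.sum_congr rfl
      intro p hp
      rw [if_pos hp]
    · intro n hn
      rw [if_neg hn]
  have hs2 : Summable (fun n => if n ∈ S then g n else 0) := by
    apply summable_of_ne_finset_zero (s := S)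
    intro n hn
    rw [if_neg hn]
  have hA : ‖(∑' p : Nat.Primes, ppf T t W p) - ∑ p ∈ S, ppf T t W p‖ ≤
      K * Real.log T * Real.exp (-l ^ 2 / 4) * ∑' n, ppG (1 / 16) n := by
    rw [hA1, hA2, hA3, ← hgs.tsum_sub hs2]
    apply tsum_of_norm_bounded ((ppG_summable (1 / 16) (by norm_num)).hasSum.mul_left _)
    intro n
    by_cases hnS : n ∈ S
    · rw [if_pos hnS, sub_self, norm_zero]
      have := ppG_nonneg (1 / 16) n
      positivity
    · rw [if_neg hnS, sub_zero]
      by_cases hn : n.Prime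
      · rw [hg, Set.indicator_of_mem (show n ∈ {p : ℕ | p.Prime} from hn)]
        have hn2 : Real.exp (2 * l) < n := by
          have : ¬ (n ≤ ⌊Real.exp (2 * l)⌋₊) := by
            intro h
            exact hnS (Finset.mem_filter.2 ⟨Finset.mem_Icc.2 ⟨hn.one_lt.le, h⟩, hn⟩)
          rw [not_le] at this
          exact (Nat.floor_lt (Real.exp_pos _).le).1 this
        have hlogn : 2 * l ≤ Real.log n := by
          rw [Real.le_log_iff_exp_le (by exact_mod_cast hn.pos)]
          exact hn2.le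
        have h0 : 0 ≤ Real.log n := Real.log_natCast_nonneg n
        calc ‖ppf T t W n‖ ≤ Real.log n * (n : ℝ) ^ (-(1 / 2) : ℝ) * ‖bt T W n‖ :=
              ppf_norm_le T t W n
          _ ≤ Real.log n * (n : ℝ) ^ (-(1 / 2) : ℝ) *
              (K * (Real.exp (-l ^ 2 / 4) * Real.exp (-(1 / 16) * (Real.log n) ^ 2)) *
                Real.log T) := by
              apply mul_le_mul_of_nonneg_left _ (by positivity)
              refine (bt_far T hT1 W K l hW hl n (by linarith)).trans ?_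
              have : Real.exp (-(Real.log n - l) ^ 2 / 2) ≤
                  Real.exp (-l ^ 2 / 4) * Real.exp (-(1 / 16) * (Real.log n) ^ 2) := by
                rw [← Real.exp_add]
                apply Real.exp_le_exp.2
                nlinarith
              gcongr
          _ = _ := by
              unfold ppG
              ring
      · rw [hg, Set.indicator_of_notMem (show n ∉ {p : ℕ | p.Prime} from hn), norm_zero]
        have := ppG_nonneg (1 / 16) n
        positivity
  -- higher powers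
  set N : ℕ := ⌊Real.exp l⌋₊ with hN
  set B : ℕ → ℝ := fun n => 4 * K * ((if n ≤ N then ArithmeticFunction.vonMangoldt n / n
    else 0) + Real.log T * (Real.exp (-l ^ 2 / 4) * ppG (1 / 4) n)) with hB
  have hB0 : ∀ n, 0 ≤ B n := by
    intro n
    have h1 := ppG_nonneg (1 / 4) n
    have h2 : 0 ≤ ArithmeticFunction.vonMangoldt n := ArithmeticFunction.vonMangoldt_nonneg
    have h3 : (0 : ℝ) ≤ (if n ≤ N then ArithmeticFunction.vonMangoldt n / n else 0) := by
      split_ifs <;> positivity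
    rw [hB]
    positivity
  have hs3 : HasSum (fun n : ℕ => if n ≤ N then ArithmeticFunction.vonMangoldt n / n else 0)
      (∑ n ∈ Finset.Icc 1 N, ArithmeticFunction.vonMangoldt n / n) := by
    have h1 : ∑ n ∈ Finset.Icc 1 N, ArithmeticFunction.vonMangoldt n / (n : ℝ) =
        ∑ n ∈ Finset.Icc 1 N,
          (if n ≤ N then ArithmeticFunction.vonMangoldt n / (n : ℝ) else 0) := by
      apply Finset.sum_congr rfl
      intro n hn
      rw [if_pos (Finset.mem_Icc.1 hn).2]
    rw [h1]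
    apply hasSum_sum_of_ne_finset_zero
    intro n hn
    by_cases hnT : n ≤ N
    · have hn0 : n = 0 := by
        by_contra h
        exact hn (Finset.mem_Icc.2 ⟨Nat.one_le_iff_ne_zero.2 h, hnT⟩)
      subst hn0
      simp
    · rw [if_neg hnT]
  have hBs : HasSum B (4 * K * ((∑ n ∈ Finset.Icc 1 N, ArithmeticFunction.vonMangoldt n / n) +
      Real.log T * (Real.exp (-l ^ 2 / 4) * ∑' n, ppG (1 / 4) n))) :=
    (hs3.add (((ppG_summable (1 / 4) (by norm_num)).hasSum.mul_left _).mul_left _)).mul_left _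
  have hC : ‖∑' (p : Nat.Primes) (k : ℕ), ppf T t W (p ^ (k + 2))‖ ≤
      4 * K * ((∑ n ∈ Finset.Icc 1 N, ArithmeticFunction.vonMangoldt n / n) +
      Real.log T * (Real.exp (-l ^ 2 / 4) * ∑' n, ppG (1 / 4) n)) := by
    have hBsub : Summable (fun p : Nat.Primes => B p) := hBs.summable.subtype _
    have h1 : ‖∑' (p : Nat.Primes) (k : ℕ), ppf T t W (p ^ (k + 2))‖ ≤
        ∑' p : Nat.Primes, B p := by
      apply tsum_of_norm_bounded hBsub.hasSum
      intro p
      exact ppf_inner2 T t hT1 W K l hl0 hW hl p p.2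
    refine h1.trans ?_
    rw [← hBs.tsum_eq]
    exact hBs.summable.tsum_subtype_le B {p : ℕ | p.Prime} hB0
  have hmert : ∑ n ∈ Finset.Icc 1 N, ArithmeticFunction.vonMangoldt n / (n : ℝ) ≤
      l + 6 := by
    have hfl : 1 ≤ N := by
      rw [hN]
      apply Nat.le_floor
      rw [Nat.cast_one]
      exact Real.one_le_exp hl0.le
    have h1 := H370.nt_mertens_upper N hfl
    have h2 : Real.log N ≤ l := by
      have h3 : (N : ℝ) ≤ Real.exp l := Nat.floor_le (Real.exp_pos _).le
      have h4 := Real.log_le_log (by exact_mod_cast hfl) h3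
      rwa [Real.log_exp] at h4
    linarith
  rw [hps, hQ]
  have hG : 0 ≤ K * (Real.log T * Real.exp (-l ^ 2 / 4)) := by positivity
  calc ‖(∑' p : Nat.Primes, ppf T t W p) +
      (∑' (p : Nat.Primes) (k : ℕ), ppf T t W (p ^ (k + 2))) - ∑ p ∈ S, ppf T t W p‖
      = ‖((∑' p : Nat.Primes, ppf T t W p) - ∑ p ∈ S, ppf T t W p) +
      ∑' (p : Nat.Primes) (k : ℕ), ppf T t W (p ^ (k + 2))‖ := by
        congr 1
        ring
    _ ≤ K * Real.log T * Real.exp (-l ^ 2 / 4) * (∑' n, ppG (1 / 16) n) +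
        4 * K * ((l + 6) + Real.log T * (Real.exp (-l ^ 2 / 4) * ∑' n, ppG (1 / 4) n)) := by
        refine (norm_add_le _ _).trans (add_le_add hA (hC.trans ?_))
        gcongr
    _ ≤ _ := by
        have : K * Real.log T * Real.exp (-l ^ 2 / 4) * (∑' n, ppG (1 / 16) n) +
          4 * K * ((l + 6) + Real.log T * (Real.exp (-l ^ 2 / 4) * ∑' n, ppG (1 / 4) n)) +
          K * (Real.log T * Real.exp (-l ^ 2 / 4)) =
          K * (4 * (l + 6) + ((∑' n, ppG (1 / 16) n) + 4 * (∑' n, ppG (1 / 4) n) + 1) *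
            (Real.log T * Real.exp (-l ^ 2 / 4))) := by ring
        linarith

end GT

end LG
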